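import Pool.Agent.Lib_helper33.Tiles.Count
set_option autoImplicit false

/-!
# Asymptotics (helper33)
-/

namespace Tiles33

open Finset Filter Topology

/-- the number of types is a power smaller than 1 -/
lemma card_Sm_asym {δ : ℝ} (hδ : 0 < δ) (hδ1 : δ ≤ 1 / 2) :
    ∀ᶠ L : ℝ in atTop, ∀ n m X : ℕ, Real.log n = L → m ≠ 0 → m ≤ n →
      (X : ℝ) ≤ Real.exp (L ^ (2 - δ)) → ((Sm m X).card : ℝ) ≤ Real.exp ((1 - δ / 8) * L) := by
  set lam : ℝ := 1 - δ / 2 with hlam
  have hl0 : 0 < lam := by rw [hlam]; linarith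
  set e : ℝ := (1 - δ) / lam with he
  have he1 : e < 1 := by
    rw [he, div_lt_one hl0, hlam]
    linarith
  -- (8/δ)^(1/lam) * L^e ≤ (δ/8) L eventually
  have hlim : Tendsto (fun L : ℝ => (8 / δ) ^ (1 / lam) * L ^ (-(1 - e))) atTop (𝓝 0) := by
    have := (tendsto_rpow_neg_atTop (show 0 < 1 - e by linarith)).const_mul ((8 / δ) ^ (1 / lam))
    rwa [mul_zero] at this
  have hev : ∀ᶠ L : ℝ in atTop, (8 / δ) ^ (1 / lam) * L ^ (-(1 - e)) < δ / 8 :=
    hlim.eventually (gt_mem_nhds (by positivity))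
  filter_upwards [hev, eventually_ge_atTop (1 : ℝ)] with L hL hL1 n m X hn hm hmn hX
  have hL0 : 0 < L := by linarith
  have hn0 : (0 : ℝ) < n := by
    have : 0 < n := by omega
    exact_mod_cast this
  have hnL : (n : ℝ) = Real.exp L := by rw [← hn, Real.exp_log hn0]
  set σ : ℝ := δ / 4 * L ^ (δ - 1) with hσ
  have hLp : 0 < L ^ (δ - 1) := Real.rpow_pos_of_pos hL0 _
  have hσ0 : 0 < σ := by positivity
  have hσ1 : σ ≤ 1 := by
    have h1 : L ^ (δ - 1) ≤ 1 := Real.rpow_le_one_of_one_le_of_nonpos hL1 (by linarith)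
    rw [hσ]
    nlinarith
  refine (card_Sm_le m X hσ0 hσ1).trans ?_
  -- first factor
  have h1 : (X : ℝ) ^ σ ≤ Real.exp (δ / 4 * L) := by
    refine (Real.rpow_le_rpow (by positivity) hX hσ0.le).trans (le_of_eq ?_)
    rw [← Real.exp_mul]
    congr 1
    rw [hσ]
    have h2 : L ^ (2 - δ) * L ^ (δ - 1) = L := by
      rw [← Real.rpow_add hL0]
      rw [show 2 - δ + (δ - 1) = 1 by ring, Real.rpow_one]
    calc L ^ (2 - δ) * (δ / 4 * L ^ (δ - 1)) = δ / 4 * (L ^ (2 - δ) * L ^ (δ - 1)) := by ring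
      _ = δ / 4 * L := by rw [h2]
  -- second factor
  have h2 : (2 / σ) ^ m.primeFactors.card ≤ Real.exp ((1 - δ / 2 + δ / 8) * L) := by
    have hfac : ((m.primeFactors.card.factorial : ℕ) : ℝ) ≤ n := by
      exact_mod_cast (factorial_card_le hm).trans hmn
    refine (pow_le_of_factorial (by positivity) hl0 hn0.le hfac).trans ?_
    have h3 : (2 / σ) = 8 / δ * L ^ (1 - δ) := by
      rw [hσ]
      have h4 : L ^ (1 - δ) = (L ^ (δ - 1))⁻¹ := by
        rw [← Real.rpow_neg hL0.le]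
        congr 1
        ring
      rw [h4]
      field_simp
      norm_num
    have h5 : (2 / σ) ^ (1 / lam) ≤ δ / 8 * L := by
      rw [h3, Real.mul_rpow (by positivity) (by positivity), ← Real.rpow_mul hL0.le]
      have h6 : (1 - δ) * (1 / lam) = -(1 - e) + 1 := by
        rw [he]
        ring
      rw [h6, Real.rpow_add hL0, Real.rpow_one, ← mul_assoc]
      exact mul_le_mul_of_nonneg_right hL.le hL0.le
    have h7 : (n : ℝ) ^ lam = Real.exp (lam * L) := by
      rw [hnL, ← Real.exp_mul, mul_comm]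
    rw [h7, ← Real.exp_add]
    refine Real.exp_le_exp.2 ?_
    have h8 : lam * (2 / σ) ^ (1 / lam) ≤ 1 * (δ / 8 * L) :=
      mul_le_mul (by rw [hlam]; linarith) h5 (by positivity) (by norm_num)
    rw [hlam] at h8 ⊢
    linarith
  calc (X : ℝ) ^ σ * (2 / σ) ^ m.primeFactors.card
      ≤ Real.exp (δ / 4 * L) * Real.exp ((1 - δ / 2 + δ / 8) * L) :=
        mul_le_mul h1 h2 (by positivity) (Real.exp_pos _).le
    _ = Real.exp ((1 - δ / 8) * L) := by
        rw [← Real.exp_add]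
        congr 1
        ring

/-- the number of divisors -/
lemma card_divisors_asym {δ L : ℝ} (hδ : 0 < δ) (hδ1 : δ ≤ 1 / 2) (hL1 : 1 ≤ L) {n m X : ℕ}
    (hn : Real.log n = L) (hm : m ≠ 0) (hmn : m ≤ n) (hX : (X : ℝ) ≤ Real.exp (L ^ (2 - δ))) :
    ((m ^ X).divisors.card : ℝ) ≤ Real.exp (6 * L ^ 3) := by
  have hL0 : 0 < L := by linarith
  have hn0 : (0 : ℝ) < n := by
    have : 0 < n := by omega
    exact_mod_cast this
  have hnL : (n : ℝ) = Real.exp L := by rw [← hn, Real.exp_log hn0]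
  have h1 : ((m ^ X).divisors.card : ℝ) ≤ ((X : ℝ) * n + 1) ^ m.primeFactors.card := by
    exact_mod_cast card_divisors_pow_le hm hmn
  refine h1.trans ?_
  have h2 : (X : ℝ) * n + 1 ≤ Real.exp (3 * L ^ 2) := by
    have h3 : L ^ (2 - δ) ≤ L ^ 2 := by
      rw [← Real.rpow_natCast L 2]
      exact Real.rpow_le_rpow_of_exponent_le hL1 (by push_cast; linarith)
    have h4 : (X : ℝ) * n ≤ Real.exp (L ^ 2 + L) := by
      rw [Real.exp_add, hnL]
      exact mul_le_mul_of_nonneg_right (hX.trans (Real.exp_le_exp.2 h3)) (Real.exp_pos _).le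
    have h5 : Real.exp (L ^ 2 + L) + 1 ≤ Real.exp (L ^ 2 + L + 1) := by
      rw [Real.exp_add (L ^ 2 + L) 1]
      have h6 : (2 : ℝ) ≤ Real.exp 1 := by
        have := Real.add_one_le_exp (1 : ℝ)
        linarith
      have h7 : 1 ≤ Real.exp (L ^ 2 + L) := Real.one_le_exp (by positivity)
      nlinarith
    refine (add_le_add_left h4 1).trans (h5.trans (Real.exp_le_exp.2 ?_))
    nlinarith
  have h3 : (m.primeFactors.card : ℝ) ≤ 2 * L := by
    have h4 : (2 : ℝ) ^ m.primeFactors.card ≤ n := by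
      exact_mod_cast (card_primeFactors_le hm).trans hmn
    have h5 : (m.primeFactors.card : ℝ) * Real.log 2 ≤ L := by
      rw [← hn, ← Real.log_pow]
      exact Real.log_le_log (by positivity) h4
    have h6 : (1 : ℝ) / 2 ≤ Real.log 2 := by
      have := Real.log_two_gt_d9
      linarith
    have h7 : (0 : ℝ) ≤ m.primeFactors.card := Nat.cast_nonneg _
    nlinarith
  calc ((X : ℝ) * n + 1) ^ m.primeFactors.card
      ≤ Real.exp (3 * L ^ 2) ^ m.primeFactors.card := pow_le_pow_left₀ (by positivity) h2 _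
    _ = Real.exp (m.primeFactors.card * (3 * L ^ 2)) := by rw [← Real.exp_nat_mul]
    _ ≤ Real.exp (6 * L ^ 3) := by
        refine Real.exp_le_exp.2 ?_
        have h4 : (0 : ℝ) ≤ 3 * L ^ 2 := by positivity
        nlinarith [mul_le_mul_of_nonneg_right h3 h4]

lemma final_asym {δ c : ℝ} (hδ : 0 < δ) (hc : 0 < c) :
    ∀ᶠ L : ℝ in atTop, L + 6 * L ^ 3 + Real.exp ((1 - δ / 8) * L) ≤ c * Real.exp L := by
  have h1 : Tendsto (fun L : ℝ => L ^ 1 * Real.exp (-L)) atTop (𝓝 0) :=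
    Real.tendsto_pow_mul_exp_neg_atTop_nhds_zero 1
  have h2 : Tendsto (fun L : ℝ => 6 * (L ^ 3 * Real.exp (-L))) atTop (𝓝 (6 * 0)) :=
    (Real.tendsto_pow_mul_exp_neg_atTop_nhds_zero 3).const_mul 6
  have h3 : Tendsto (fun L : ℝ => Real.exp (-(δ / 8 * L))) atTop (𝓝 0) :=
    Real.tendsto_exp_neg_atTop_nhds_zero.comp
      (tendsto_id.const_mul_atTop (show 0 < δ / 8 by positivity))
  have h4 := (h1.add h2).add h3
  rw [mul_zero, add_zero, add_zero] at h4
  filter_upwards [h4.eventually (gt_mem_nhds hc)] with L hL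
  have h5 := mul_le_mul_of_nonneg_right hL.le (Real.exp_pos L).le
  refine le_trans (le_of_eq ?_) h5
  have h6 : Real.exp (-L) * Real.exp L = 1 := by rw [← Real.exp_add, neg_add_cancel, Real.exp_zero]
  have h7 : Real.exp (-(δ / 8 * L)) * Real.exp L = Real.exp ((1 - δ / 8) * L) := by
    rw [← Real.exp_add]
    congr 1
    ring
  calc L + 6 * L ^ 3 + Real.exp ((1 - δ / 8) * L)
      = L * (Real.exp (-L) * Real.exp L) + 6 * L ^ 3 * (Real.exp (-L) * Real.exp L) +
        Real.exp (-(δ / 8 * L)) * Real.exp L := by rw [h6, h7]; ring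
    _ = _ := by ring

/-- the main count -/
theorem asym {δ ε : ℝ} (hδ : 0 < δ) (hε : 0 < ε) :
    ∃ n₀ : ℕ, ∀ n : ℕ, n₀ ≤ n → ∀ X : ℕ, (X : ℝ) ≤ Real.exp (Real.log n ^ (2 - δ)) →
      (∑ m ∈ Finset.Icc 1 n, ((m ^ X).divisors.card : ℝ) * 2 ^ (Sm m X).card) *
        (3 : ℝ) ^ ((n : ℝ) / 3) ≤ ((3 : ℝ) ^ ((1 : ℝ) / 3) + ε) ^ n := by
  set δ' : ℝ := min δ (1 / 2) with hδ'
  have hδ'0 : 0 < δ' := lt_min hδ (by norm_num)
  have hδ'1 : δ' ≤ 1 / 2 := min_le_right _ _
  have hδ'2 : δ' ≤ δ := min_le_left _ _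
  set κ : ℝ := (3 : ℝ) ^ ((1 : ℝ) / 3) with hκ
  have hκ0 : 0 < κ := by positivity
  set c : ℝ := Real.log (1 + ε / κ) with hc
  have hc0 : 0 < c := Real.log_pos (by
    have : 0 < ε / κ := by positivity
    linarith)
  have hev := ((card_Sm_asym hδ'0 hδ'1).and ((final_asym hδ'0 hc0).and
    (eventually_ge_atTop (1 : ℝ))))
  have hev2 := (Real.tendsto_log_atTop.comp tendsto_natCast_atTop_atTop).eventually hev
  obtain ⟨n₀, hn₀⟩ := Filter.eventually_atTop.1 hev2
  refine ⟨max n₀ 1, fun n hn X hX => ?_⟩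
  obtain ⟨h1, h2, h3⟩ := hn₀ n ((le_max_left _ _).trans hn)
  simp only [Function.comp_apply] at h1 h2 h3
  set L : ℝ := Real.log n with hL
  have hnpos : (0 : ℝ) < n := by
    have : 0 < n := lt_of_lt_of_le one_pos ((le_max_right _ _).trans hn)
    exact_mod_cast this
  have hnL : (n : ℝ) = Real.exp L := by rw [hL, Real.exp_log hnpos]
  have hX' : (X : ℝ) ≤ Real.exp (L ^ (2 - δ')) :=
    hX.trans (Real.exp_le_exp.2 (Real.rpow_le_rpow_of_exponent_le h3 (by linarith)))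
  have hterm : ∀ m ∈ Finset.Icc 1 n, ((m ^ X).divisors.card : ℝ) * 2 ^ (Sm m X).card ≤
      Real.exp (6 * L ^ 3) * Real.exp (Real.exp ((1 - δ' / 8) * L)) := by
    intro m hm
    rw [Finset.mem_Icc] at hm
    have hm0 : m ≠ 0 := by omega
    have h4 := card_divisors_asym hδ'0 hδ'1 h3 hL.symm hm0 hm.2 hX'
    have h5 := h1 n m X hL.symm hm0 hm.2 hX'
    have h6 : (2 : ℝ) ^ (Sm m X).card ≤ Real.exp (Real.exp ((1 - δ' / 8) * L)) := by
      have h7 : (2 : ℝ) ≤ Real.exp 1 := by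
        have := Real.add_one_le_exp (1 : ℝ)
        linarith
      calc (2 : ℝ) ^ (Sm m X).card ≤ Real.exp 1 ^ (Sm m X).card :=
            pow_le_pow_left₀ (by norm_num) h7 _
        _ = Real.exp ((Sm m X).card * 1) := by rw [← Real.exp_nat_mul]
        _ ≤ _ := Real.exp_le_exp.2 (by rw [mul_one]; exact h5)
    exact mul_le_mul h4 h6 (by positivity) (Real.exp_pos _).le
  have hsum := Finset.sum_le_card_nsmul _ _ _ hterm
  rw [Nat.card_Icc, nsmul_eq_mul, Nat.add_sub_cancel] at hsum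
  have hfin : (n : ℝ) * (Real.exp (6 * L ^ 3) * Real.exp (Real.exp ((1 - δ' / 8) * L))) ≤
      (1 + ε / κ) ^ n := by
    have h4 : (n : ℝ) * (Real.exp (6 * L ^ 3) * Real.exp (Real.exp ((1 - δ' / 8) * L))) =
        Real.exp (L + 6 * L ^ 3 + Real.exp ((1 - δ' / 8) * L)) := by
      rw [Real.exp_add, Real.exp_add, ← hnL]
      ring
    have h5 : (1 + ε / κ) ^ n = Real.exp (c * Real.exp L) := by
      rw [← hnL, hc, mul_comm, Real.exp_nat_mul, Real.exp_log (by positivity)]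
    rw [h4, h5]
    exact Real.exp_le_exp.2 h2
  have h3n : (3 : ℝ) ^ ((n : ℝ) / 3) = κ ^ n := by
    rw [hκ, ← Real.rpow_natCast, ← Real.rpow_mul (by norm_num)]
    congr 1
    ring
  rw [h3n]
  calc (∑ m ∈ Finset.Icc 1 n, ((m ^ X).divisors.card : ℝ) * 2 ^ (Sm m X).card) * κ ^ n
      ≤ (1 + ε / κ) ^ n * κ ^ n :=
        mul_le_mul_of_nonneg_right (hsum.trans hfin) (by positivity)
    _ = (κ + ε) ^ n := by
        rw [← mul_pow]
        congr 1
        field_simp

end Tiles33
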