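import Mathlib
set_option autoImplicit false

/-!
# Finite tiles of the integers: periodic complements, dilations (helper33)

Tiles A B : every integer is a + b with a in A, b in B in exactly one way.
-/

namespace Tiles33

open Finset

/-- the integers are the direct sum of A and B -/
def Tiles (A : Finset ℤ) (B : Set ℤ) : Prop := ∀ x : ℤ, ∃! a, a ∈ A ∧ x - a ∈ B

/-- periodic sets -/
def Per (N : ℤ) (B : Set ℤ) : Prop := ∀ x : ℤ, x + N ∈ B ↔ x ∈ B

lemma Per.mul {N : ℤ} {B : Set ℤ} (h : Per N B) (k : ℤ) (x : ℤ) : x + k * N ∈ B ↔ x ∈ B := by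
  induction k using Int.induction_on with
  | zero => simp
  | succ i ih =>
    have : x + ((i : ℤ) + 1) * N = (x + (i : ℤ) * N) + N := by ring
    rw [this, h, ih]
  | pred i ih =>
    have h1 := h (x + (-(i : ℤ) - 1) * N)
    have : x + (-(i : ℤ) - 1) * N + N = x + (-(i : ℤ)) * N := by ring
    rw [this] at h1
    rw [← h1, ih]

lemma Per.modEq {N : ℤ} {B : Set ℤ} (h : Per N B) {x y : ℤ} (hxy : N ∣ x - y) :
    x ∈ B ↔ y ∈ B := by
  obtain ⟨k, hk⟩ := hxy
  have : x = y + k * N := by linarith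
  rw [this, h.mul]

lemma Tiles.unique {A : Finset ℤ} {B : Set ℤ} (h : Tiles A B) {a a' b b' : ℤ} (ha : a ∈ A)
    (ha' : a' ∈ A) (hb : b ∈ B) (hb' : b' ∈ B) (he : a + b = a' + b') : a = a' := by
  refine (h (a + b)).unique ⟨ha, by simpa using hb⟩ ⟨ha', ?_⟩
  rw [he]
  simpa using hb'

lemma Tiles.nonempty {A : Finset ℤ} {B : Set ℤ} (h : Tiles A B) : A.Nonempty := by
  obtain ⟨a, ⟨ha, -⟩, -⟩ := h 0
  exact ⟨a, ha⟩

/-! ## Periodic complements -/

/-- if the sets B ∩ [t, t+D) and B ∩ [t+N, t+N+D) agree then there is an N-periodic complement -/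
lemma periodic_of_window {A : Finset ℤ} {B : Set ℤ} (h : Tiles A B) {D N t : ℤ} (hD : 0 < D)
    (hN : D ≤ N) (hA : ∀ a ∈ A, 0 ≤ a ∧ a < D)
    (hw : ∀ x, t ≤ x → x < t + D → (x ∈ B ↔ x + N ∈ B)) :
    ∃ B' : Set ℤ, Per N B' ∧ Tiles A B' := by
  have hN0 : 0 < N := by omega
  -- the periodic extension of the part of B in [t, t + N)
  set φ : ℤ → ℤ := fun x => (x - t) % N + t with hφ
  have hφ1 : ∀ x, t ≤ φ x ∧ φ x < t + N := fun x => by
    have h1 := Int.emod_nonneg (x - t) hN0.ne'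
    have h2 := Int.emod_lt_of_pos (x - t) hN0
    simp only [hφ]
    constructor <;> omega
  have hφ2 : ∀ x, N ∣ x - φ x := fun x => by
    have h1 : x - φ x = (x - t) - (x - t) % N := by simp only [hφ]; ring
    rw [h1]
    exact Int.dvd_self_sub_emod
  have hφ3 : ∀ x, φ (x + N) = φ x := fun x => by
    simp only [hφ]
    rw [show x + N - t = (x - t) + N by ring, Int.add_emod_right]
  have hφ4 : ∀ x, t ≤ x → x < t + N → φ x = x := fun x h1 h2 => by
    simp only [hφ]
    rw [Int.emod_eq_of_lt (by omega) (by omega)]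
    ring
  refine ⟨{x | φ x ∈ B}, fun x => by simp only [Set.mem_ofPred_eq, hφ3], ?_⟩
  -- the two sets agree on [t, t + N + D)
  have hagree : ∀ x, t ≤ x → x < t + N + D → (φ x ∈ B ↔ x ∈ B) := by
    intro x h1 h2
    rcases lt_or_ge x (t + N) with h3 | h3
    · rw [hφ4 x h1 h3]
    · have h4 : φ x = x - N := by
        have h5 := hφ3 (x - N)
        rw [sub_add_cancel] at h5
        rw [h5, hφ4 (x - N) (by omega) (by omega)]
      rw [h4, hw (x - N) (by omega) (by omega), sub_add_cancel]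
  intro y
  -- move y to [t + D, t + D + N)
  set y' : ℤ := (y - (t + D)) % N + (t + D) with hy'
  have h1 : t + D ≤ y' ∧ y' < t + D + N := by
    have h1 := Int.emod_nonneg (y - (t + D)) hN0.ne'
    have h2 := Int.emod_lt_of_pos (y - (t + D)) hN0
    constructor <;> omega
  have h2 : N ∣ y - y' := by
    have h1 : y - y' = (y - (t + D)) - (y - (t + D)) % N := by rw [hy']; ring
    rw [h1]
    exact Int.dvd_self_sub_emod
  obtain ⟨k, hk⟩ := h2
  have hφk : ∀ (j : ℤ) (x : ℤ), φ (x + j * N) = φ x := by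
    intro j x
    simp only [hφ]
    rw [show x + j * N - t = (x - t) + j * N by ring, Int.add_mul_emod_self_right]
  have h3 : ∀ a ∈ A, (φ (y - a) ∈ B ↔ y' - a ∈ B) := by
    intro a ha
    obtain ⟨ha1, ha2⟩ := hA a ha
    have h4 : y - a = (y' - a) + k * N := by linarith
    rw [h4, hφk]
    exact hagree _ (by omega) (by omega)
  obtain ⟨a, ⟨ha1, ha2⟩, ha3⟩ := h y'
  refine ⟨a, ⟨ha1, (h3 a ha1).2 ha2⟩, ?_⟩
  rintro b ⟨hb1, hb2⟩
  exact ha3 b ⟨hb1, (h3 b hb1).1 hb2⟩

/-- every finite tile in [0, D) has a periodic complement -/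
lemma exists_periodic' {A : Finset ℤ} {B : Set ℤ} (h : Tiles A B) {D : ℤ} (hD : 0 < D)
    (hA : ∀ a ∈ A, 0 ≤ a ∧ a < D) : ∃ (N : ℤ) (B' : Set ℤ), 0 < N ∧ Per N B' ∧ Tiles A B' := by
  classical
  set w : ℕ → Finset ℤ := fun i => (Finset.Ico 0 D).filter fun x => x + i * D ∈ B with hw
  have hmem : ∀ i, w i ∈ (Finset.Ico 0 D).powerset := fun i =>
    Finset.mem_powerset.2 (Finset.filter_subset _ _)
  obtain ⟨i, j, hij, heq⟩ : ∃ i j : ℕ, i < j ∧ w i = w j := by
    obtain ⟨i, j, h1, h2⟩ := Finite.exists_ne_map_eq_of_infinite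
      (fun i : ℕ => (⟨w i, hmem i⟩ : ((Finset.Ico 0 D).powerset : Finset (Finset ℤ))))
    rw [Subtype.mk.injEq] at h2
    rcases lt_or_gt_of_ne h1 with h3 | h3
    · exact ⟨i, j, h3, h2⟩
    · exact ⟨j, i, h3, h2.symm⟩
  have hji : (1 : ℤ) ≤ (j : ℤ) - i := by omega
  have hN : D ≤ ((j : ℤ) - i) * D := by nlinarith
  refine ⟨((j : ℤ) - i) * D, ?_⟩
  obtain ⟨B', h1, h2⟩ := periodic_of_window h (t := i * D) hD hN hA (by
    intro x hx1 hx2
    have h3 : (x - i * D ∈ w i) ↔ (x - i * D ∈ w j) := by rw [heq]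
    simp only [hw, Finset.mem_filter, Finset.mem_Ico] at h3
    have h4 : 0 ≤ x - i * D ∧ x - i * D < D := ⟨by linarith, by linarith⟩
    have h5 : x - (i : ℤ) * D + i * D = x := by ring
    have h6 : x - (i : ℤ) * D + j * D = x + ((j : ℤ) - i) * D := by ring
    rw [h5, h6] at h3
    tauto)
  exact ⟨B', by omega, h1, h2⟩

/-- translation of the tile -/
lemma Tiles.image_sub {A : Finset ℤ} {B : Set ℤ} (h : Tiles A B) (c : ℤ) :
    Tiles (A.image fun a => a - c) B := by
  intro x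
  obtain ⟨a, ⟨ha1, ha2⟩, ha3⟩ := h (x + c)
  refine ⟨a - c, ⟨Finset.mem_image_of_mem _ ha1, by
    rw [show x - (a - c) = x + c - a by ring]; exact ha2⟩, ?_⟩
  rintro b ⟨hb1, hb2⟩
  obtain ⟨a', ha', rfl⟩ := Finset.mem_image.1 hb1
  rw [ha3 a' ⟨ha', by rw [show x + c - a' = x - (a' - c) by ring]; exact hb2⟩]

lemma Tiles.of_image_sub {A : Finset ℤ} {B : Set ℤ} {c : ℤ}
    (h : Tiles (A.image fun a => a - c) B) : Tiles A B := by
  have h1 := h.image_sub (-c)
  rw [Finset.image_image] at h1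
  have : ((fun a => a - -c) ∘ fun a : ℤ => a - c) = id := by
    funext a
    simp
  rwa [this, Finset.image_id] at h1

/-- every finite tile has a periodic complement -/
theorem exists_periodic {A : Finset ℤ} {B : Set ℤ} (h : Tiles A B) :
    ∃ (N : ℤ) (B' : Set ℤ), 0 < N ∧ Per N B' ∧ Tiles A B' := by
  have hne := h.nonempty
  set c := A.min' hne with hc
  obtain ⟨N, B', h1, h2, h3⟩ := exists_periodic' (h.image_sub c) (D := A.max' hne - c + 1)
    (by
      have := A.min'_le_max' hne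
      omega)
    (by
      intro a ha
      obtain ⟨b, hb, rfl⟩ := Finset.mem_image.1 ha
      have h4 := A.min'_le b hb
      have h5 := A.le_max' b hb
      constructor <;> omega)
  exact ⟨N, B', h1, h2, h3.of_image_sub⟩

/-! ## Dilations (Tijdeman) -/

/-- translations of functions on the integers, as a monoid homomorphism -/
def shiftHom (p : ℕ) : Multiplicative ℤ →* Module.End (ZMod p) (ℤ → ZMod p) where
  toFun a :=
    { toFun := fun h x => h (x - Multiplicative.toAdd a)
      map_add' := fun _ _ => rfl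
      map_smul' := fun _ _ => rfl }
  map_one' := by
    ext h x
    simp
  map_mul' a b := by
    refine LinearMap.ext fun h => funext fun x => ?_
    simp only [toAdd_mul, LinearMap.coe_mk, AddHom.coe_mk, Module.End.mul_apply]
    congr 1
    ring

/-- the number of solutions of x = p a + b is not zero modulo p -/
lemma exists_mul {A : Finset ℤ} {B : Set ℤ} (h : Tiles A B) {p : ℕ} (hp : p.Prime)
    (hpA : ¬ p ∣ A.card) (x : ℤ) : ∃ a ∈ A, x - p * a ∈ B := by
  classical
  have : Fact p.Prime := ⟨hp⟩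
  set Φ := AddMonoidAlgebra.lift (ZMod p) (Module.End (ZMod p) (ℤ → ZMod p)) ℤ (shiftHom p) with hΦ
  set P : AddMonoidAlgebra (ZMod p) ℤ := ∑ a ∈ A, AddMonoidAlgebra.single a 1 with hP
  set β : ℤ → ZMod p := fun x => if x ∈ B then 1 else 0 with hβ
  have hsingle : ∀ (a : ℤ) (g : ℤ → ZMod p) (y : ℤ),
      Φ (AddMonoidAlgebra.single a 1) g y = g (y - a) := by
    intro a g y
    rw [hΦ, AddMonoidAlgebra.lift_single]
    simp [shiftHom]
  have hPg : ∀ (g : ℤ → ZMod p) (y : ℤ), Φ P g y = ∑ a ∈ A, g (y - a) := by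
    intro g y
    rw [hP, map_sum, LinearMap.sum_apply, Finset.sum_apply]
    exact Finset.sum_congr rfl fun a _ => hsingle a g y
  -- P β = 1
  have h1 : Φ P β = 1 := by
    funext y
    rw [hPg]
    obtain ⟨a, ⟨ha1, ha2⟩, ha3⟩ := h y
    rw [Finset.sum_eq_single a]
    · simp [hβ, ha2]
    · intro b hb hne
      simp only [hβ]
      rw [if_neg]
      exact fun hc => hne (ha3 b ⟨hb, hc⟩)
    · exact fun hc => absurd ha1 hc
  -- P 1 = |A|
  have h2 : ∀ c : ZMod p, Φ P (fun _ => c) = fun _ => (A.card : ZMod p) * c := by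
    intro c
    funext y
    rw [hPg, Finset.sum_const, nsmul_eq_mul]
  have h3 : ∀ k : ℕ, ((Φ P) ^ k) (1 : ℤ → ZMod p) = fun _ => (A.card : ZMod p) ^ k := by
    intro k
    induction k with
    | zero =>
      funext y
      simp
    | succ k ih =>
      rw [pow_succ', Module.End.mul_apply, ih, h2]
      funext y
      ring
  have h4 : Φ (P ^ p) β = fun _ => 1 := by
    have h5 : (Φ P) ^ p = (Φ P) ^ (p - 1) * Φ P := by
      rw [← pow_succ, Nat.sub_add_cancel hp.pos]
    rw [map_pow, h5, Module.End.mul_apply, h1, h3]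
    funext y
    refine ZMod.pow_card_sub_one_eq_one ?_
    rw [Ne, ZMod.natCast_eq_zero_iff]
    exact hpA
  have h5 : P ^ p = ∑ a ∈ A, AddMonoidAlgebra.single ((p : ℤ) * a) 1 := by
    have : CharP (AddMonoidAlgebra (ZMod p) ℤ) p :=
      charP_of_injective_algebraMap
        (FaithfulSMul.algebraMap_injective (ZMod p) (AddMonoidAlgebra (ZMod p) ℤ)) p
    rw [hP, sum_pow_char]
    refine Finset.sum_congr rfl fun a _ => ?_
    rw [AddMonoidAlgebra.single_pow, one_pow, nsmul_eq_mul]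
  rw [h5, map_sum] at h4
  have h6 := congrFun h4 x
  rw [LinearMap.sum_apply, Finset.sum_apply] at h6
  by_contra hcon
  push Not at hcon
  have h7 : ∑ a ∈ A, Φ (AddMonoidAlgebra.single ((p : ℤ) * a) 1) β x = 0 := by
    refine Finset.sum_eq_zero fun a ha => ?_
    rw [hsingle]
    simp only [hβ]
    rw [if_neg (hcon a ha)]
  rw [h7] at h6
  exact zero_ne_one h6

end Tiles33
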