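import Mathlib
set_option autoImplicit false

/-!
# Numbers composed of the primes of a given number: Rankin's bound (helper33)
-/

namespace Tiles33

open Finset

/-- the numbers in [1, X] all of whose primes divide m -/
def Sm (m X : ℕ) : Finset ℕ :=
  (Finset.Icc 1 X).filter fun τ => τ.primeFactors ⊆ m.primeFactors

lemma mem_Sm {m X τ : ℕ} : τ ∈ Sm m X ↔ (1 ≤ τ ∧ τ ≤ X) ∧ τ.primeFactors ⊆ m.primeFactors := by
  unfold Sm
  rw [Finset.mem_filter, Finset.mem_Icc]

/-- the function n ^ (-σ) -/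
noncomputable def powHom (σ : ℝ) : ℕ →* ℝ where
  toFun n := (n : ℝ) ^ (-σ)
  map_one' := by simp
  map_mul' a b := by
    rw [Nat.cast_mul, Real.mul_rpow (by positivity) (by positivity)]

lemma two_rpow_le {σ : ℝ} (h0 : 0 ≤ σ) (h1 : σ ≤ 1) : (2 : ℝ) ^ (-σ) ≤ 1 - σ / 2 := by
  have h := Real.geom_mean_le_arith_mean2_weighted (w₁ := σ) (w₂ := 1 - σ) (p₁ := 1 / 2) (p₂ := 1)
    h0 (by linarith) (by norm_num) (by norm_num) (by ring)
  rw [Real.one_rpow, mul_one] at h
  have h2 : ((1 : ℝ) / 2) ^ σ = (2 : ℝ) ^ (-σ) := by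
    rw [one_div, Real.inv_rpow (by norm_num), Real.rpow_neg (by norm_num)]
  rw [h2] at h
  linarith

/-- Rankin's bound -/
theorem card_Sm_le (m X : ℕ) {σ : ℝ} (h0 : 0 < σ) (h1 : σ ≤ 1) :
    ((Sm m X).card : ℝ) ≤ (X : ℝ) ^ σ * (2 / σ) ^ m.primeFactors.card := by
  have hlt : ∀ {p : ℕ}, p.Prime → ‖powHom σ p‖ < 1 := by
    intro p hp
    change ‖((p : ℝ)) ^ (-σ)‖ < 1
    rw [Real.norm_of_nonneg (by positivity)]
    exact Real.rpow_lt_one_of_one_lt_of_neg (by exact_mod_cast hp.one_lt) (by linarith)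
  obtain ⟨hsum, hhas⟩ := EulerProduct.summable_and_hasSum_factoredNumbers_prod_filter_prime_geometric
    hlt m.primeFactors
  have hprod : ∏ p ∈ m.primeFactors with p.Prime, (1 - powHom σ p)⁻¹ ≤
      (2 / σ) ^ m.primeFactors.card := by
    have hf : (m.primeFactors.filter fun p => p.Prime) = m.primeFactors :=
      Finset.filter_true_of_mem fun p hp => Nat.prime_of_mem_primeFactors hp
    rw [hf]
    refine (Finset.prod_le_prod (f := fun p => (1 - powHom σ p)⁻¹) (g := fun _ => 2 / σ) ?_ ?_).trans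
      (le_of_eq (by rw [Finset.prod_const]))
    · intro p hp
      have := hlt (Nat.prime_of_mem_primeFactors hp)
      rw [inv_nonneg, sub_nonneg]
      exact (le_abs_self _).trans this.le
    · intro p hp
      have hpp := Nat.prime_of_mem_primeFactors hp
      have h2 : powHom σ p ≤ 1 - σ / 2 := by
        change ((p : ℝ)) ^ (-σ) ≤ 1 - σ / 2
        refine le_trans ?_ (two_rpow_le h0.le h1)
        exact Real.rpow_le_rpow_of_nonpos (by norm_num) (by exact_mod_cast hpp.two_le) (by linarith)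
      have h3 : (2 / σ) = (σ / 2)⁻¹ := by rw [inv_div]
      rw [h3]
      exact inv_anti₀ (by linarith) (by linarith)
  refine le_trans ?_ (mul_le_mul_of_nonneg_left hprod (by positivity))
  -- the sum over Sm
  have hmem : ∀ τ ∈ Sm m X, τ ∈ Nat.factoredNumbers m.primeFactors := fun τ hτ => by
    rw [mem_Sm] at hτ
    exact Nat.mem_factoredNumbers_of_primeFactors_subset (by omega) hτ.2
  have hsum2 : ∑ τ ∈ Sm m X, (τ : ℝ) ^ (-σ) ≤
      ∏ p ∈ m.primeFactors with p.Prime, (1 - powHom σ p)⁻¹ := by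
    classical
    set e : {τ // τ ∈ Sm m X} ↪ Nat.factoredNumbers m.primeFactors :=
      ⟨fun τ => ⟨τ.1, hmem τ.1 τ.2⟩, fun a b hab => Subtype.ext
        (congrArg (fun z : Nat.factoredNumbers m.primeFactors => (z : ℕ)) hab)⟩ with he
    have h2 : ∑ τ ∈ Sm m X, (τ : ℝ) ^ (-σ) = ∑ τ ∈ (Sm m X).attach.map e, powHom σ τ := by
      rw [Finset.sum_map, ← Finset.sum_attach]
      rfl
    rw [h2]
    refine sum_le_hasSum _ (fun τ _ => ?_) hhas
    change 0 ≤ ((τ : ℕ) : ℝ) ^ (-σ)
    positivity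
  have h3 : ((Sm m X).card : ℝ) ≤ ∑ τ ∈ Sm m X, (X : ℝ) ^ σ * (τ : ℝ) ^ (-σ) := by
    rw [Finset.card_eq_sum_ones, Nat.cast_sum]
    refine Finset.sum_le_sum fun τ hτ => ?_
    rw [mem_Sm] at hτ
    have hτ0 : (0 : ℝ) < τ := by exact_mod_cast hτ.1.1
    rw [Real.rpow_neg hτ0.le, ← div_eq_mul_inv, Nat.cast_one, le_div_iff₀ (by positivity), one_mul]
    exact Real.rpow_le_rpow hτ0.le (by exact_mod_cast hτ.1.2) h0.le
  rw [← Finset.mul_sum] at h3
  exact h3.trans (mul_le_mul_of_nonneg_left hsum2 (by positivity))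

/-- the factorial of the number of primes of m is at most m -/
lemma factorial_card_le {m : ℕ} (hm : m ≠ 0) : (m.primeFactors.card).factorial ≤ m := by
  have h1 : ∀ s : Finset ℕ, (∀ p ∈ s, 1 ≤ p) → s.card.factorial ≤ ∏ p ∈ s, p := by
    intro s
    induction s using Finset.induction_on_max with
    | empty => simp
    | insert a s ha ih =>
      intro h
      have hna : a ∉ s := fun h2 => lt_irrefl _ (ha a h2)
      rw [Finset.card_insert_of_notMem hna, Finset.prod_insert hna, Nat.factorial_succ]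
      refine Nat.mul_le_mul ?_ (ih fun p hp => h p (Finset.mem_insert_of_mem hp))
      have h2 : s ⊆ Finset.Ico 1 a := fun p hp =>
        Finset.mem_Ico.2 ⟨h p (Finset.mem_insert_of_mem hp), ha p hp⟩
      have h3 := Finset.card_le_card h2
      rw [Nat.card_Ico] at h3
      have h4 := h a (Finset.mem_insert_self a s)
      omega
  refine (h1 _ fun p hp => (Nat.prime_of_mem_primeFactors hp).one_le).trans ?_
  exact Nat.le_of_dvd (Nat.pos_of_ne_zero hm) (Nat.prod_primeFactors_dvd m)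

/-- the number of primes of m is at most the binary logarithm -/
lemma card_primeFactors_le {m : ℕ} (hm : m ≠ 0) : 2 ^ m.primeFactors.card ≤ m := by
  have h1 : 2 ^ m.primeFactors.card ≤ ∏ p ∈ m.primeFactors, p :=
    Finset.pow_card_le_prod _ _ _ fun p hp => (Nat.prime_of_mem_primeFactors hp).two_le
  exact h1.trans (Nat.le_of_dvd (Nat.pos_of_ne_zero hm) (Nat.prod_primeFactors_dvd m))

/-- power bound: t ^ r ≤ n ^ λ * exp (λ t ^ (1/λ)) when r! ≤ n -/
lemma pow_le_of_factorial {t lam n : ℝ} {r : ℕ} (ht : 0 ≤ t) (hl : 0 < lam) (hn : 0 ≤ n)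
    (hr : (r.factorial : ℝ) ≤ n) : t ^ r ≤ n ^ lam * Real.exp (lam * t ^ (1 / lam)) := by
  set s : ℝ := t ^ (1 / lam) with hs
  have hs0 : 0 ≤ s := Real.rpow_nonneg ht _
  have h1 : s ^ r ≤ n * Real.exp s := by
    have h2 := Real.pow_div_factorial_le_exp s hs0 r
    rw [div_le_iff₀ (by positivity)] at h2
    calc s ^ r ≤ Real.exp s * r.factorial := h2
      _ ≤ Real.exp s * n := mul_le_mul_of_nonneg_left hr (Real.exp_pos _).le
      _ = n * Real.exp s := mul_comm _ _
  have h2 : t ^ r = (s ^ r) ^ lam := by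
    rw [← Real.rpow_natCast s r, ← Real.rpow_mul hs0, mul_comm, Real.rpow_mul hs0, hs,
      ← Real.rpow_mul ht, one_div, inv_mul_cancel₀ hl.ne', Real.rpow_one, Real.rpow_natCast]
  rw [h2]
  calc (s ^ r) ^ lam ≤ (n * Real.exp s) ^ lam := Real.rpow_le_rpow (by positivity) h1 hl.le
    _ = n ^ lam * Real.exp (lam * s) := by
      rw [Real.mul_rpow hn (Real.exp_pos _).le, ← Real.exp_mul, mul_comm s lam]

/-- the number of divisors of a power -/
lemma card_divisors_pow_le {m n E : ℕ} (hm : m ≠ 0) (hmn : m ≤ n) :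
    (m ^ E).divisors.card ≤ (E * n + 1) ^ m.primeFactors.card := by
  rcases Nat.eq_zero_or_pos E with rfl | hE
  · simp
  rw [Nat.card_divisors (pow_ne_zero _ hm), Nat.primeFactors_pow _ hE.ne']
  refine (Finset.prod_le_pow_card _ _ (E * n + 1) fun p _ => ?_)
  rw [Nat.factorization_pow, Finsupp.smul_apply, smul_eq_mul]
  have h1 : m.factorization p ≤ n := (Nat.factorization_lt p hm).le.trans hmn
  have := Nat.mul_le_mul_left E h1
  omega

end Tiles33
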