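import Pool.Agent.Lib_helper33.Tiles.Graph
import Pool.Agent.Lib_helper33.Tiles.Rankin
set_option autoImplicit false

/-!
# Counting the graphs of a set of small diameter (helper33)
-/

namespace Tiles33

open Finset

/-- every divisor of e all of whose primes are at most n is at most X -/
def SmoothPartLe (n X e : ℕ) : Prop :=
  ∀ d : ℕ, d ∣ e → (∀ p : ℕ, p.Prime → p ∣ d → p ≤ n) → d ≤ X

lemma nat_gcd_trunc {e N m n X : ℕ} (heX : SmoothPartLe n X e) (hm0 : m ≠ 0) (hmn : m ≤ n)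
    (hm : ∀ p : ℕ, p.Prime → p ∣ N → p ∣ m) :
    Nat.gcd e N = Nat.gcd e (Nat.gcd N (m ^ X)) := by
  apply Nat.dvd_antisymm
  · refine Nat.dvd_gcd (Nat.gcd_dvd_left _ _) (Nat.dvd_gcd (Nat.gcd_dvd_right _ _) ?_)
    rw [Nat.dvd_iff_prime_pow_dvd_dvd]
    intro p k hp hk
    rcases Nat.eq_zero_or_pos k with rfl | hk0
    · simp
    have h1 : p ∣ m := hm p hp ((dvd_pow_self p hk0.ne').trans (hk.trans (Nat.gcd_dvd_right _ _)))
    have h2 : p ^ k ≤ X := by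
      refine heX _ (hk.trans (Nat.gcd_dvd_left _ _)) fun q hq hqd => ?_
      rw [(Nat.prime_dvd_prime_iff_eq hq hp).1 (hq.dvd_of_dvd_pow hqd)]
      exact (Nat.le_of_dvd (Nat.pos_of_ne_zero hm0) h1).trans hmn
    have h3 : k ≤ X := (Nat.lt_pow_self hp.one_lt).le.trans h2
    exact (pow_dvd_pow_of_dvd h1 k).trans (pow_dvd_pow m h3)
  · exact Nat.gcd_dvd_gcd_of_dvd_right _ (Nat.gcd_dvd_left _ _)

/-- every tile in M is a maximal independent set of one of few graphs -/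
theorem exists_graph {A M : Finset ℤ} (hA : ∃ B, Tiles A B) (hAM : A ⊆ M) {X : ℕ}
    (hX : ∀ x ∈ M, ∀ y ∈ M, x ≠ y → SmoothPartLe M.card X (x - y).natAbs) :
    ∃ m ∈ Finset.Icc 1 M.card, ∃ K ∈ (m ^ X).divisors, ∃ D ∈ (Sm m X).powerset,
      A ∈ MI (rel K (D : Set ℕ)) M := by
  classical
  obtain ⟨B₀, hB₀⟩ := hA
  obtain ⟨N, B, hN, hper, ht, h0, hp⟩ := exists_min_period hB₀
  set m := A.card with hm
  have hm0 : m ≠ 0 := (Finset.card_pos.2 ht.nonempty).ne'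
  set K := Nat.gcd N (m ^ X) with hK
  set D' : Set ℕ := {d | ∃ b ∈ B, Int.gcd b N = d} with hD'
  refine ⟨m, Finset.mem_Icc.2 ⟨Nat.pos_of_ne_zero hm0, Finset.card_le_card hAM⟩, K, ?_,
    (Sm m X).filter (· ∈ D'), Finset.mem_powerset.2 (Finset.filter_subset _ _), ?_⟩
  · rw [Nat.mem_divisors]
    exact ⟨Nat.gcd_dvd_right _ _, pow_ne_zero _ hm0⟩
  rw [mem_MI]
  have hiff : ∀ x ∈ M, ∀ y ∈ M, x ≠ y →
      (rel K (((Sm m X).filter (· ∈ D') : Finset ℕ) : Set ℕ) x y ↔ rel N D' x y) := by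
    intro x hx y hy hxy
    have he : 0 < (x - y).natAbs := Int.natAbs_pos.2 (sub_ne_zero.2 hxy)
    have heX := hX x hx y hy hxy
    have hmn : m ≤ M.card := Finset.card_le_card hAM
    have h1 : Int.gcd (x - y) N = Int.gcd (x - y) K := by
      change Nat.gcd _ _ = Nat.gcd _ _
      rw [Int.natAbs_natCast, Int.natAbs_natCast]
      exact nat_gcd_trunc heX hm0 hmn hp
    have h2 : Int.gcd (x - y) K ∈ Sm m X := by
      rw [mem_Sm]
      have h3 : Int.gcd (x - y) K ∣ (x - y).natAbs := Nat.gcd_dvd_left _ _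
      have h4 : Int.gcd (x - y) K ∣ K := by
        have := Nat.gcd_dvd_right (x - y).natAbs (K : ℤ).natAbs
        rwa [Int.natAbs_natCast] at this
      have h5 : Int.gcd (x - y) K ∣ m ^ X := h4.trans (Nat.gcd_dvd_right _ _)
      have h6 : ∀ q : ℕ, q.Prime → q ∣ Int.gcd (x - y) K → q ∣ m := fun q hq hqd =>
        hq.dvd_of_dvd_pow (hqd.trans h5)
      refine ⟨⟨Nat.pos_of_dvd_of_pos h3 he, heX _ h3 fun q hq hqd =>
        (Nat.le_of_dvd (Nat.pos_of_ne_zero hm0) (h6 q hq hqd)).trans hmn⟩, ?_⟩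
      intro p hp'
      have hp1 := Nat.prime_of_mem_primeFactors hp'
      exact Nat.mem_primeFactors.2 ⟨hp1, h6 p hp1 (Nat.dvd_of_mem_primeFactors hp'), hm0⟩
    unfold rel
    rw [Finset.mem_coe, Finset.mem_filter, h1]
    exact ⟨fun h => h.2, fun h => ⟨h2, h⟩⟩
  obtain ⟨h1, h2, h3⟩ := ht.isMI hN hper h0 hAM
  refine ⟨h1, ?_, ?_⟩
  · intro x hx y hy hxy hr
    exact h2 x hx y hy hxy ((hiff x (hAM hx) y (hAM hy) hxy).1 hr)
  · intro x hx hxA
    obtain ⟨y, hy, hr⟩ := h3 x hx hxA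
    exact ⟨y, hy, (hiff x hx y (hAM hy) (fun h => hxA (h ▸ hy))).2 hr⟩

/-- the number of tiles in a set whose differences have small smooth parts -/
theorem card_tiles_le {M : Finset ℤ} {X : ℕ}
    (hX : ∀ x ∈ M, ∀ y ∈ M, x ≠ y → SmoothPartLe M.card X (x - y).natAbs)
    (S : Finset (Finset ℤ)) (hS : ∀ A ∈ S, A ⊆ M ∧ ∃ B, Tiles A B) :
    (S.card : ℝ) ≤ (∑ m ∈ Finset.Icc 1 M.card, ((m ^ X).divisors.card : ℝ) * 2 ^ (Sm m X).card) *
      (3 : ℝ) ^ ((M.card : ℝ) / 3) := by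
  classical
  have h1 : S ⊆ (Finset.Icc 1 M.card).biUnion fun m => (m ^ X).divisors.biUnion fun K =>
      (Sm m X).powerset.biUnion fun D => MI (rel K (D : Set ℕ)) M := by
    intro A hA
    obtain ⟨m, hm, K, hK, D, hD, h⟩ := exists_graph (hS A hA).2 (hS A hA).1 hX
    exact Finset.mem_biUnion.2 ⟨m, hm, Finset.mem_biUnion.2 ⟨K, hK, Finset.mem_biUnion.2
      ⟨D, hD, h⟩⟩⟩
  have h2 := (Finset.card_le_card h1).trans Finset.card_biUnion_le
  have h3 : (S.card : ℝ) ≤ ∑ m ∈ Finset.Icc 1 M.card, ((((m ^ X).divisors.biUnion fun K =>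
      (Sm m X).powerset.biUnion fun D => MI (rel K (D : Set ℕ)) M).card : ℕ) : ℝ) := by
    exact_mod_cast h2
  refine h3.trans ?_
  rw [Finset.sum_mul]
  refine Finset.sum_le_sum fun m _ => ?_
  have h4 : ((((m ^ X).divisors.biUnion fun K =>
      (Sm m X).powerset.biUnion fun D => MI (rel K (D : Set ℕ)) M).card : ℕ) : ℝ) ≤
      ∑ K ∈ (m ^ X).divisors, ∑ D ∈ (Sm m X).powerset, (((MI (rel K (D : Set ℕ)) M).card : ℕ) : ℝ) := by
    have h5 : ((m ^ X).divisors.biUnion fun K =>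
      (Sm m X).powerset.biUnion fun D => MI (rel K (D : Set ℕ)) M).card ≤
      ∑ K ∈ (m ^ X).divisors, ∑ D ∈ (Sm m X).powerset, (MI (rel K (D : Set ℕ)) M).card :=
      Finset.card_biUnion_le.trans (Finset.sum_le_sum fun K _ => Finset.card_biUnion_le)
    exact_mod_cast h5
  refine h4.trans ?_
  have h6 : ∀ K ∈ (m ^ X).divisors, ∑ D ∈ (Sm m X).powerset,
      (((MI (rel K (D : Set ℕ)) M).card : ℕ) : ℝ) ≤ 2 ^ (Sm m X).card * (3 : ℝ) ^ ((M.card : ℝ) / 3) := by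
    intro K _
    refine (Finset.sum_le_card_nsmul _ _ ((3 : ℝ) ^ ((M.card : ℝ) / 3)) fun D _ =>
      moon_moser_real _ (rel_symm K _) M).trans (le_of_eq ?_)
    rw [Finset.card_powerset, nsmul_eq_mul]
    push_cast
    ring
  refine (Finset.sum_le_card_nsmul _ _ _ h6).trans (le_of_eq ?_)
  rw [nsmul_eq_mul]
  ring

end Tiles33
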