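import Pool.Agent.Lib_helper33.Tiles.Basic
set_option autoImplicit false

/-!
# Finite tiles of the integers: dilations of the tile, minimal periods (helper33)
-/

namespace Tiles33

open Finset

/-- the number of points of a periodic set in a period does not change under translation -/
lemma Per.card_shift {N : ℤ} (hN : 0 < N) {B : Set ℤ} (hB : Per N B) (c : ℤ)
    [DecidablePred (· ∈ B)] :
    ((Finset.Ico 0 N).filter fun x => x - c ∈ B).card = ((Finset.Ico 0 N).filter (· ∈ B)).card := by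
  refine Finset.card_bij (fun x _ => (x - c) % N) ?_ ?_ ?_
  · intro x hx
    simp only [Finset.mem_filter, Finset.mem_Ico] at hx ⊢
    refine ⟨⟨Int.emod_nonneg _ hN.ne', Int.emod_lt_of_pos _ hN⟩, ?_⟩
    refine (hB.modEq ?_).1 hx.2
    exact Int.dvd_self_sub_emod
  · intro x hx y hy hxy
    simp only [Finset.mem_filter, Finset.mem_Ico] at hx hy
    have h1 : N ∣ (x - c) - (y - c) := Int.ModEq.dvd (Eq.symm hxy)
    have h2 : (x - c) - (y - c) = x - y := by ring
    rw [h2] at h1
    obtain ⟨k, hk⟩ := h1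
    have h3 : k = 0 := by
      rcases lt_trichotomy k 0 with h | h | h
      · nlinarith
      · exact h
      · nlinarith
    rw [h3, mul_zero] at hk
    omega
  · intro y hy
    simp only [Finset.mem_filter, Finset.mem_Ico] at hy
    refine ⟨(y + c) % N, ?_, ?_⟩
    · simp only [Finset.mem_filter, Finset.mem_Ico]
      refine ⟨⟨Int.emod_nonneg _ hN.ne', Int.emod_lt_of_pos _ hN⟩, ?_⟩
      refine (hB.modEq ?_).2 hy.2
      have h1 : N ∣ (y + c) - (y + c) % N := Int.dvd_self_sub_emod
      have h2 : (y + c) % N - c - y = -((y + c) - (y + c) % N) := by ring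
      rw [h2]
      exact (dvd_neg).2 h1
    · have h1 : ((y + c) % N - c) % N = (y + c - c) % N := by
        rw [Int.sub_emod, Int.emod_emod_of_dvd _ (dvd_refl N), ← Int.sub_emod]
      rw [h1, add_sub_cancel_right]
      exact Int.emod_eq_of_lt hy.1.1 hy.1.2

/-- double counting over a period -/
lemma sum_count {N : ℤ} (hN : 0 < N) {B : Set ℤ} (hB : Per N B) (A : Finset ℤ) (f : ℤ → ℤ)
    [DecidablePred (· ∈ B)] :
    ∑ x ∈ Finset.Ico 0 N, (A.filter fun a => x - f a ∈ B).card =
      A.card * ((Finset.Ico 0 N).filter (· ∈ B)).card := by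
  simp only [Finset.card_filter]
  rw [Finset.sum_comm]
  have h : ∀ a ∈ A, ∑ x ∈ Finset.Ico 0 N, (if x - f a ∈ B then 1 else 0) =
      ∑ x ∈ Finset.Ico 0 N, (if x ∈ B then 1 else 0) := by
    intro a _
    rw [← Finset.card_filter, ← Finset.card_filter]
    exact hB.card_shift hN (f a)
  rw [Finset.sum_congr rfl h, Finset.sum_const, smul_eq_mul]

lemma Tiles.card_filter {A : Finset ℤ} {B : Set ℤ} (h : Tiles A B) [DecidablePred (· ∈ B)]
    (x : ℤ) : (A.filter fun a => x - a ∈ B).card = 1 := by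
  obtain ⟨a, ⟨ha1, ha2⟩, ha3⟩ := h x
  rw [Finset.card_eq_one]
  refine ⟨a, Finset.ext fun b => ?_⟩
  simp only [Finset.mem_filter, Finset.mem_singleton]
  exact ⟨fun hb => ha3 b hb, fun hb => by rw [hb]; exact ⟨ha1, ha2⟩⟩

/-- the size of the tile divides the period of a complement -/
lemma Tiles.card_mul {A : Finset ℤ} {B : Set ℤ} (h : Tiles A B) {N : ℤ} (hN : 0 < N)
    (hB : Per N B) [DecidablePred (· ∈ B)] :
    (A.card * ((Finset.Ico 0 N).filter (· ∈ B)).card : ℕ) = N.toNat := by
  have h1 := sum_count hN hB A (fun a => a)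
  rw [← h1, Finset.sum_congr rfl fun x _ => h.card_filter x, Finset.sum_const, smul_eq_mul,
    mul_one, Int.card_Ico, sub_zero]

/-- dilations by a prime not dividing the number of elements -/
theorem Tiles.mul_prime {A : Finset ℤ} {B : Set ℤ} (h : Tiles A B) {N : ℤ} (hN : 0 < N)
    (hB : Per N B) {p : ℕ} (hp : p.Prime) (hpA : ¬ p ∣ A.card) :
    Tiles (A.image fun a => (p : ℤ) * a) B := by
  classical
  have hinj : Function.Injective fun a : ℤ => (p : ℤ) * a :=
    mul_right_injective₀ (by exact_mod_cast hp.ne_zero)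
  -- exactly one solution for every x in a period
  have h1 : ∀ x ∈ Finset.Ico 0 N, 1 ≤ (A.filter fun a => x - p * a ∈ B).card := by
    intro x _
    obtain ⟨a, ha1, ha2⟩ := exists_mul h hp hpA x
    exact Finset.card_pos.2 ⟨a, Finset.mem_filter.2 ⟨ha1, ha2⟩⟩
  have h2 : ∑ x ∈ Finset.Ico 0 N, (A.filter fun a => x - p * a ∈ B).card =
      ∑ x ∈ Finset.Ico 0 N, 1 := by
    rw [sum_count hN hB A (fun a => (p : ℤ) * a), h.card_mul hN hB, Finset.sum_const, smul_eq_mul,
      mul_one, Int.card_Ico, sub_zero]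
  have h3 : ∀ x ∈ Finset.Ico 0 N, (A.filter fun a => x - p * a ∈ B).card = 1 :=
    fun x hx => (((Finset.sum_eq_sum_iff_of_le h1).1 h2.symm) x hx).symm
  intro x
  -- reduce x modulo N
  have hx0 : x % N ∈ Finset.Ico 0 N :=
    Finset.mem_Ico.2 ⟨Int.emod_nonneg _ hN.ne', Int.emod_lt_of_pos _ hN⟩
  have h4 := h3 (x % N) hx0
  obtain ⟨a, ha⟩ := Finset.card_eq_one.1 h4
  have h5 : ∀ b : ℤ, (x % N - p * b ∈ B ↔ x - p * b ∈ B) := fun b => by
    refine hB.modEq ?_
    have : x % N - p * b - (x - p * b) = -(x - x % N) := by ring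
    rw [this]
    exact (dvd_neg).2 Int.dvd_self_sub_emod
  have ha1 : a ∈ A.filter fun a => x % N - p * a ∈ B := by rw [ha]; exact Finset.mem_singleton_self a
  rw [Finset.mem_filter] at ha1
  refine ⟨p * a, ⟨Finset.mem_image_of_mem _ ha1.1, (h5 a).1 ha1.2⟩, ?_⟩
  rintro y ⟨hy1, hy2⟩
  obtain ⟨b, hb, rfl⟩ := Finset.mem_image.1 hy1
  have hb1 : b ∈ A.filter fun a => x % N - p * a ∈ B := Finset.mem_filter.2 ⟨hb, (h5 b).2 hy2⟩
  rw [ha, Finset.mem_singleton] at hb1
  rw [hb1]

lemma card_image_mul {A : Finset ℤ} {k : ℕ} (hk : k ≠ 0) :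
    (A.image fun a => (k : ℤ) * a).card = A.card :=
  Finset.card_image_of_injective _ (mul_right_injective₀ (by exact_mod_cast hk))

/-- Tijdeman: dilations by integers coprime to the number of elements -/
theorem Tiles.mul_coprime {A : Finset ℤ} {B : Set ℤ} (h : Tiles A B) {N : ℤ} (hN : 0 < N)
    (hB : Per N B) {k : ℕ} (hk : k.Coprime A.card) (hk0 : k ≠ 0) :
    Tiles (A.image fun a => (k : ℤ) * a) B := by
  induction k using Nat.recOnMul generalizing A with
  | zero => exact absurd rfl hk0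
  | one =>
    have : (fun a : ℤ => ((1 : ℕ) : ℤ) * a) = id := by
      funext a
      simp
    rwa [this, Finset.image_id]
  | prime p hp =>
    exact h.mul_prime hN hB hp fun hd => by
      have := Nat.Coprime.eq_one_of_dvd hk hd
      exact hp.one_lt.ne' this
  | mul a b iha ihb =>
    have ha0 : a ≠ 0 := fun h0 => hk0 (by rw [h0, zero_mul])
    have hb0 : b ≠ 0 := fun h0 => hk0 (by rw [h0, mul_zero])
    have h1 := ihb h (Nat.Coprime.coprime_mul_left hk) hb0
    have h2 := iha h1 (by rw [card_image_mul hb0]; exact Nat.Coprime.coprime_mul_right hk) ha0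
    rw [Finset.image_image] at h2
    have : ((fun x : ℤ => (a : ℤ) * x) ∘ fun x : ℤ => (b : ℤ) * x) =
        fun x : ℤ => ((a * b : ℕ) : ℤ) * x := by
      funext x
      simp only [Function.comp_apply, Nat.cast_mul]
      ring
    rwa [this] at h2

/-! ## Minimal periods -/

/-- every finite tile has a periodic complement whose period has only primes dividing the number of
elements of the tile; we may take 0 in the complement -/
theorem exists_min_period {A : Finset ℤ} {B : Set ℤ} (h : Tiles A B) :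
    ∃ (N : ℕ) (B' : Set ℤ), 0 < N ∧ Per N B' ∧ Tiles A B' ∧ (0 : ℤ) ∈ B' ∧
      ∀ p : ℕ, p.Prime → p ∣ N → p ∣ A.card := by
  classical
  have hex : ∃ N : ℕ, 0 < N ∧ ∃ B' : Set ℤ, Per N B' ∧ Tiles A B' := by
    obtain ⟨N, B', h1, h2, h3⟩ := exists_periodic h
    refine ⟨N.toNat, by omega, B', ?_, h3⟩
    rwa [Int.toNat_of_nonneg h1.le]
  obtain ⟨hN0, B', hper, htile⟩ := Nat.find_spec hex
  set N := Nat.find hex with hN
  have hprime : ∀ p : ℕ, p.Prime → p ∣ N → p ∣ A.card := by
    intro p hp hpN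
    by_contra hpA
    obtain ⟨N', hN'⟩ := hpN
    have hN'0 : 0 < N' := Nat.pos_of_ne_zero fun h0 => by rw [h0, mul_zero] at hN'; omega
    have hlt : N' < N := by
      rw [hN']
      exact lt_mul_left hN'0 hp.one_lt
    refine Nat.find_min hex hlt ⟨hN'0, {y | (p : ℤ) * y ∈ B'}, ?_, ?_⟩
    · intro y
      simp only [Set.mem_ofPred_eq]
      have : (p : ℤ) * (y + N') = p * y + N := by
        rw [hN']
        push_cast
        ring
      rw [this, hper]
    · have h1 := htile.mul_prime (by exact_mod_cast hN0) hper hp hpA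
      intro x
      obtain ⟨y, ⟨hy1, hy2⟩, hy3⟩ := h1 (p * x)
      obtain ⟨a, ha, rfl⟩ := Finset.mem_image.1 hy1
      refine ⟨a, ⟨ha, ?_⟩, ?_⟩
      · simp only [Set.mem_ofPred_eq]
        rwa [mul_sub]
      · rintro b ⟨hb1, hb2⟩
        simp only [Set.mem_ofPred_eq] at hb2
        rw [mul_sub] at hb2
        have h2 := hy3 (p * b) ⟨Finset.mem_image_of_mem _ hb1, hb2⟩
        have hp0 : (p : ℤ) ≠ 0 := by exact_mod_cast hp.ne_zero
        exact mul_left_cancel₀ hp0 h2
  -- translate so that 0 is in the complement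
  obtain ⟨a0, ⟨ha0, hb0⟩, -⟩ := htile 0
  set c : ℤ := 0 - a0 with hc
  refine ⟨N, {y | y + c ∈ B'}, hN0, ?_, ?_, ?_, hprime⟩
  · intro y
    simp only [Set.mem_ofPred_eq]
    rw [show y + (N : ℤ) + c = y + c + N by ring, hper]
  · intro x
    obtain ⟨a, ⟨ha1, ha2⟩, ha3⟩ := htile (x + c)
    refine ⟨a, ⟨ha1, ?_⟩, ?_⟩
    · simp only [Set.mem_ofPred_eq]
      rwa [show x - a + c = x + c - a by ring]
    · rintro b ⟨hb1, hb2⟩
      simp only [Set.mem_ofPred_eq] at hb2
      rw [show x - b + c = x + c - b by ring] at hb2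
      exact ha3 b ⟨hb1, hb2⟩
  · simp only [Set.mem_ofPred_eq]
    rw [zero_add]
    exact hb0

end Tiles33
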