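import Mathlib
set_option autoImplicit false

/-!
# The number of maximal independent sets (helper33)

For a symmetric relation r on a finite set M the number of maximal independent subsets of M is at
most 3^(|M| / 3) (Moon and Moser).
-/

namespace Tiles33

open Finset

variable {α : Type*} [DecidableEq α]

/-- A is a maximal independent subset of M for the relation r -/
def IsMI (r : α → α → Prop) (M A : Finset α) : Prop :=
  A ⊆ M ∧ (∀ x ∈ A, ∀ y ∈ A, x ≠ y → ¬ r x y) ∧ ∀ x ∈ M, x ∉ A → ∃ y ∈ A, r x y

open Classical in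
/-- all maximal independent subsets -/
noncomputable def MI (r : α → α → Prop) (M : Finset α) : Finset (Finset α) :=
  M.powerset.filter (IsMI r M)

omit [DecidableEq α] in
lemma mem_MI {r : α → α → Prop} {M A : Finset α} : A ∈ MI r M ↔ IsMI r M A := by
  classical
  unfold MI
  rw [mem_filter, mem_powerset]
  exact ⟨fun h => h.2, fun h => ⟨h.1, h⟩⟩

lemma cube_le (s : ℕ) (hs : 1 ≤ s) : s ^ 3 ≤ 3 ^ s := by
  induction s, hs using Nat.le_induction with
  | base => norm_num
  | succ k hk ih =>
    rcases Nat.lt_or_ge k 3 with h | h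
    · interval_cases k <;> norm_num
    · have h1 : (k + 1) ^ 3 ≤ 3 * k ^ 3 := by
        have h2 : 3 ≤ k := h
        nlinarith [mul_le_mul h2 h2 (by omega) (by omega), Nat.mul_le_mul h2 (Nat.mul_le_mul h2 h2),
          sq_nonneg (k : ℤ), Nat.mul_le_mul (Nat.mul_le_mul h2 h2) h2]
      calc (k + 1) ^ 3 ≤ 3 * k ^ 3 := h1
        _ ≤ 3 * 3 ^ k := by omega
        _ = 3 ^ (k + 1) := by ring

/-- closed neighbourhood -/
noncomputable def nbh (r : α → α → Prop) (M : Finset α) (u : α) : Finset α :=
  open Classical in M.filter fun x => x = u ∨ r x u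

/-- Moon and Moser -/
theorem moon_moser (r : α → α → Prop) (hr : ∀ x y, r x y → r y x) :
    ∀ (n : ℕ) (M : Finset α), M.card = n → (MI r M).card ^ 3 ≤ 3 ^ n := by
  classical
  intro n
  induction n using Nat.strong_induction_on with
  | _ n ih =>
    intro M hM
    rcases M.eq_empty_or_nonempty with rfl | hne
    · simp only [card_empty] at hM
      subst hM
      have h1 : (MI r (∅ : Finset α)).card ≤ 1 := by
        refine card_le_one.mpr fun A hA B hB => ?_
        have h2 := (mem_MI.1 hA).1
        have h3 := (mem_MI.1 hB).1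
        rw [subset_empty] at h2 h3
        rw [h2, h3]
      calc (MI r (∅ : Finset α)).card ^ 3 ≤ 1 ^ 3 := Nat.pow_le_pow_left h1 3
        _ = 3 ^ 0 := by norm_num
    · -- a vertex with the smallest closed neighbourhood
      obtain ⟨v, hv, hmin⟩ := exists_min_image M (fun u => (nbh r M u).card) hne
      set s := (nbh r M v).card with hs
      have hvn : v ∈ nbh r M v := by
        unfold nbh
        exact mem_filter.2 ⟨hv, Or.inl rfl⟩
      have hs1 : 1 ≤ s := card_pos.2 ⟨v, hvn⟩
      have hsn : s ≤ n := by
        rw [← hM]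
        exact card_le_card (filter_subset _ _)
      -- every maximal independent set meets the neighbourhood of v
      have hcov : MI r M ⊆ (nbh r M v).biUnion fun u =>
          (MI r (M \ nbh r M u)).image fun A => insert u A := by
        intro A hA
        obtain ⟨h1, h2, h3⟩ := mem_MI.1 hA
        obtain ⟨u, hu, huA⟩ : ∃ u ∈ nbh r M v, u ∈ A := by
          by_cases hvA : v ∈ A
          · exact ⟨v, hvn, hvA⟩
          · obtain ⟨y, hy, hy2⟩ := h3 v hv hvA
            exact ⟨y, by unfold nbh; exact mem_filter.2 ⟨h1 hy, Or.inr (hr _ _ hy2)⟩, hy⟩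
        rw [mem_biUnion]
        refine ⟨u, hu, mem_image.2 ⟨A.erase u, mem_MI.2 ⟨?_, ?_, ?_⟩, insert_erase huA⟩⟩
        · intro x hx
          rw [mem_erase] at hx
          rw [mem_sdiff]
          refine ⟨h1 hx.2, fun h4 => ?_⟩
          unfold nbh at h4
          rcases (mem_filter.1 h4).2 with h5 | h5
          · exact hx.1 h5
          · exact h2 x hx.2 u huA hx.1 h5
        · intro x hx y hy hxy
          exact h2 x (mem_of_mem_erase hx) y (mem_of_mem_erase hy) hxy
        · intro x hx hxA
          rw [mem_sdiff] at hx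
          have hxu : ¬ (x = u ∨ r x u) := fun h => hx.2 (by
            unfold nbh
            exact mem_filter.2 ⟨hx.1, h⟩)
          push Not at hxu
          have hxA' : x ∉ A := fun h => hxA (mem_erase.2 ⟨hxu.1, h⟩)
          obtain ⟨y, hy, hy2⟩ := h3 x hx.1 hxA'
          refine ⟨y, mem_erase.2 ⟨?_, hy⟩, hy2⟩
          rintro rfl
          exact hxu.2 hy2
      -- the pieces are small
      have hpiece : ∀ u ∈ nbh r M v, (MI r (M \ nbh r M u)).card ^ 3 ≤ 3 ^ (n - s) := by
        intro u hu
        have huM : u ∈ M := by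
          unfold nbh at hu
          exact (mem_filter.1 hu).1
        have hsub : nbh r M u ⊆ M := filter_subset _ _
        have h1 : (M \ nbh r M u).card = n - (nbh r M u).card := by
          rw [card_sdiff_of_subset hsub, hM]
        have h2 : s ≤ (nbh r M u).card := hmin u huM
        have h3 : (nbh r M u).card ≤ n := by
          rw [← hM]
          exact card_le_card hsub
        refine (ih (n - (nbh r M u).card) (by omega) _ h1).trans ?_
        exact Nat.pow_le_pow_right (by norm_num) (by omega)
      obtain ⟨b, hb1, hb2⟩ : ∃ b : ℕ, b ^ 3 ≤ 3 ^ (n - s) ∧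
          ∀ u ∈ nbh r M v, (MI r (M \ nbh r M u)).card ≤ b := by
        obtain ⟨u0, hu0, hmax⟩ := exists_max_image (nbh r M v)
          (fun u => (MI r (M \ nbh r M u)).card) ⟨v, hvn⟩
        exact ⟨_, hpiece u0 hu0, hmax⟩
      have h4 : (MI r M).card ≤ s * b := by
        refine (card_le_card hcov).trans (card_biUnion_le.trans ?_)
        refine (sum_le_sum fun u hu => card_image_le.trans (hb2 u hu)).trans ?_
        rw [sum_const, smul_eq_mul]
      calc (MI r M).card ^ 3 ≤ (s * b) ^ 3 := Nat.pow_le_pow_left h4 3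
        _ = s ^ 3 * b ^ 3 := by ring
        _ ≤ 3 ^ s * 3 ^ (n - s) := Nat.mul_le_mul (cube_le s hs1) hb1
        _ = 3 ^ n := by rw [← pow_add]; congr 1; omega

/-- the bound in the real form -/
theorem moon_moser_real (r : α → α → Prop) (hr : ∀ x y, r x y → r y x) (M : Finset α) :
    ((MI r M).card : ℝ) ≤ (3 : ℝ) ^ ((M.card : ℝ) / 3) := by
  have h := moon_moser r hr M.card M rfl
  have h1 : (((MI r M).card : ℝ)) ^ 3 ≤ (3 : ℝ) ^ M.card := by exact_mod_cast h
  have h2 : ((3 : ℝ) ^ ((M.card : ℝ) / 3)) ^ 3 = (3 : ℝ) ^ M.card := by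
    rw [← Real.rpow_natCast, ← Real.rpow_mul (by norm_num)]
    rw [← Real.rpow_natCast 3 M.card]
    congr 1
    push_cast
    ring
  rw [← h2] at h1
  exact le_of_pow_le_pow_left₀ (by norm_num) (by positivity) h1

end Tiles33
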