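import Pool.Agent.Lib_helper33.Tiles.Dilate
import Pool.Agent.Lib_helper33.Tiles.MoonMoser
set_option autoImplicit false

/-!
# A tile is a maximal independent set of a graph given by greatest common divisors (helper33)
-/

namespace Tiles33

open Finset

/-- the relation gcd (x - y, N) in D -/
def rel (N : ℕ) (D : Set ℕ) (x y : ℤ) : Prop := Int.gcd (x - y) N ∈ D

lemma rel_symm (N : ℕ) (D : Set ℕ) (x y : ℤ) (h : rel N D x y) : rel N D y x := by
  unfold rel at h ⊢
  rwa [← neg_sub, Int.neg_gcd]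

/-- two integers with the same greatest common divisor with N differ by a unit modulo N -/
lemma exists_unit_mul {N : ℕ} (hN : 0 < N) {u v : ℤ} (h : Int.gcd u N = Int.gcd v N) :
    ∃ k : ℕ, k.Coprime N ∧ k ≠ 0 ∧ (N : ℤ) ∣ k * u - v := by
  have hg : 0 < Int.gcd u N := Int.gcd_pos_of_ne_zero_right _ (by exact_mod_cast hN.ne')
  set g : ℕ := Int.gcd u N with hgdef
  obtain ⟨u', hu'⟩ : (g : ℤ) ∣ u := Int.gcd_dvd_left _ _
  obtain ⟨v', hv'⟩ : (g : ℤ) ∣ v := by rw [h]; exact Int.gcd_dvd_left _ _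
  obtain ⟨N', hN'⟩ : g ∣ N := by
    have := Int.gcd_dvd_right (a := u) (b := (N : ℤ))
    exact_mod_cast this
  have hN'0 : 0 < N' := Nat.pos_of_ne_zero fun h0 => by rw [h0, mul_zero] at hN'; omega
  have hcu : Int.gcd u' N' = 1 := by
    have h1 : Int.gcd (g * u') ((g : ℤ) * N') = g * Int.gcd u' N' := by
      rw [Int.gcd_mul_left]
      simp
    rw [← hu', show ((g : ℤ) * N') = (N : ℤ) by rw [hN']; push_cast; ring, ← hgdef] at h1
    exact Nat.eq_of_mul_eq_mul_left hg (by rw [← h1, mul_one])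
  have hcv : Int.gcd v' N' = 1 := by
    have h1 : Int.gcd (g * v') ((g : ℤ) * N') = g * Int.gcd v' N' := by
      rw [Int.gcd_mul_left]
      simp
    rw [← hv', show ((g : ℤ) * N') = (N : ℤ) by rw [hN']; push_cast; ring, ← h] at h1
    exact Nat.eq_of_mul_eq_mul_left hg (by rw [← h1, mul_one])
  have hUu : IsUnit ((u' : ℤ) : ZMod N') := by
    rw [ZMod.coe_int_isUnit_iff_isCoprime, isCoprime_comm, Int.isCoprime_iff_gcd_eq_one]
    exact hcu
  have hUv : IsUnit ((v' : ℤ) : ZMod N') := by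
    rw [ZMod.coe_int_isUnit_iff_isCoprime, isCoprime_comm, Int.isCoprime_iff_gcd_eq_one]
    exact hcv
  obtain ⟨a, ha⟩ := hUu
  obtain ⟨b, hb⟩ := hUv
  have hdvd : N' ∣ N := ⟨g, by rw [hN', mul_comm]⟩
  have : NeZero N := ⟨hN.ne'⟩
  obtain ⟨k, hk⟩ := ZMod.unitsMap_surjective hdvd (b * a⁻¹)
  refine ⟨(k : ZMod N).val + N, ?_, by omega, ?_⟩
  · rw [Nat.coprime_add_self_left]
    exact ZMod.val_coe_unit_coprime k
  · have h1 : (((k : ZMod N).val : ℕ) : ZMod N') = (b * a⁻¹ : (ZMod N')ˣ) := by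
      rw [← hk, ZMod.unitsMap_val]
      rw [ZMod.natCast_val]
    have h2 : (((((k : ZMod N).val : ℕ) : ℤ) * u' - v' : ℤ) : ZMod N') = 0 := by
      push_cast
      rw [h1, ← ha, ← hb]
      push_cast
      rw [mul_assoc, Units.inv_mul, mul_one, sub_self]
    rw [ZMod.intCast_zmod_eq_zero_iff_dvd] at h2
    obtain ⟨w, hw⟩ := h2
    refine ⟨w + u, ?_⟩
    have hNz : (N : ℤ) = g * N' := by exact_mod_cast hN'
    rw [hu', hv']
    push_cast
    linear_combination (g : ℤ) * hw - w * hNz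

/-- a tile is a maximal independent set -/
theorem Tiles.isMI {A M : Finset ℤ} {B : Set ℤ} (h : Tiles A B) {N : ℕ} (hN : 0 < N)
    (hB : Per N B) (h0 : (0 : ℤ) ∈ B) (hAM : A ⊆ M) :
    IsMI (rel N {d | ∃ b ∈ B, Int.gcd b N = d}) M A := by
  classical
  have hcard : A.card ∣ N := by
    have h1 := h.card_mul (by exact_mod_cast hN) hB
    exact ⟨_, by rw [h1, Int.toNat_natCast]⟩
  refine ⟨hAM, ?_, ?_⟩
  · rintro x hx y hy hxy ⟨b, hb, hgcd⟩
    obtain ⟨k, hk1, hk0, hk2⟩ := exists_unit_mul hN hgcd.symm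
    have hk3 : k.Coprime A.card := Nat.Coprime.coprime_dvd_right hcard hk1
    have h1 := h.mul_coprime (by exact_mod_cast hN) hB hk3 hk0
    have h2 : (k : ℤ) * (x - y) ∈ B := (hB.modEq hk2).2 hb
    have h3 := h1.unique (a := k * x) (a' := k * y) (b := 0) (b' := k * (x - y))
      (Finset.mem_image_of_mem _ hx) (Finset.mem_image_of_mem _ hy) h0 h2 (by ring)
    exact hxy (mul_left_cancel₀ (by exact_mod_cast hk0) h3)
  · intro x _ _
    obtain ⟨a, ⟨ha1, ha2⟩, -⟩ := h x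
    exact ⟨a, ha1, x - a, ha2, rfl⟩

end Tiles33
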